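import Mathlib

/-!
# H35E A: Bernstein-Walsh inequality for `[0,1]`

A polynomial of degree at most `N` which is bounded by `c` on `[0,1]` is bounded by `c exp (2 N √ρ)` on the `ρ`-neighbourhood of
`[0,1]`.
-/

namespace Pool.Agent.Lib.H35E

open Polynomial Metric

/-- Growth outside the unit circle. -/
theorem a_circle (R : ℂ[X]) (M : ℕ) (hM : R.natDegree ≤ M) (c : ℝ)
    (hc : ∀ u : ℂ, ‖u‖ = 1 → ‖R.eval u‖ ≤ c) (u : ℂ) (hu : 1 ≤ ‖u‖) : ‖R.eval u‖ ≤ c * ‖u‖ ^ M := by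
  have key : ∀ x : ℂ, x ≠ 0 → (R.reflect M).eval x⁻¹ * x ^ M = R.eval x := by
    intro x hx
    have : Invertible x := invertibleOfNonzero hx
    have h := eval₂_reflect_mul_pow (RingHom.id ℂ) x M R hM
    rw [invOf_eq_inv] at h
    simpa [eval₂_id] using h
  have hb : ∀ v : ℂ, ‖v‖ ≤ 1 → ‖(R.reflect M).eval v‖ ≤ c := by
    intro v hv
    refine Complex.norm_le_of_forall_mem_frontier_norm_le (U := ball (0:ℂ) 1) isBounded_ball
      (f := fun z => (R.reflect M).eval z) ?_ ?_ ?_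
    · exact (R.reflect M).differentiable.diffContOnCl
    · intro z hz
      rw [frontier_ball _ (one_ne_zero), mem_sphere_zero_iff_norm] at hz
      have hz0 : z ≠ 0 := by
        rintro rfl
        simp at hz
      have h := key z⁻¹ (inv_ne_zero hz0)
      rw [inv_inv] at h
      have h2 : ‖(R.reflect M).eval z‖ = ‖R.eval z⁻¹‖ := by
        rw [← h, norm_mul, norm_pow, norm_inv, hz]
        simp
      rw [h2]
      exact hc _ (by rw [norm_inv, hz]; simp)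
    · rw [closure_ball _ (one_ne_zero)]
      simpa using hv
  have hu0 : u ≠ 0 := by
    rintro rfl
    simp at hu
    linarith
  rw [← key u hu0, norm_mul, norm_pow]
  refine mul_le_mul_of_nonneg_right (hb _ ?_) (by positivity)
  rw [norm_inv]
  exact inv_le_one_of_one_le₀ hu

/-- The Joukowski map. -/
theorem a_jouk (ζ : ℂ) : ∃ u : ℂ, 1 ≤ ‖u‖ ∧ u ≠ 0 ∧ u + u⁻¹ = 2 * ζ := by
  obtain ⟨v, hv⟩ := IsAlgClosed.exists_pow_nat_eq (ζ ^ 2 - 1) (n := 2) (by norm_num)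
  have h1 : (ζ + v) * (ζ - v) = 1 := by linear_combination -hv
  have hn : ‖ζ + v‖ * ‖ζ - v‖ = 1 := by rw [← norm_mul, h1, norm_one]
  rcases le_total 1 ‖ζ + v‖ with h | h
  · have h0 : ζ + v ≠ 0 := by
      intro h0
      rw [h0] at h1
      simp at h1
    refine ⟨ζ + v, h, h0, ?_⟩
    have : (ζ + v)⁻¹ = ζ - v := by
      rw [inv_eq_iff_eq_inv]
      exact eq_inv_of_mul_eq_one_left h1
    rw [this]; ring
  · have h0 : ζ - v ≠ 0 := by
      intro h0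
      rw [h0] at h1
      simp at h1
    refine ⟨ζ - v, ?_, h0, ?_⟩
    · by_contra hcon
      push Not at hcon
      have h3 : ‖ζ + v‖ * ‖ζ - v‖ < 1 := by
        have := norm_nonneg (ζ + v)
        have := norm_nonneg (ζ - v)
        nlinarith
      linarith
    · have : (ζ - v)⁻¹ = ζ + v := by
        rw [inv_eq_iff_eq_inv]
        exact eq_inv_of_mul_eq_one_right h1
      rw [this]; ring

/-- The modulus of the Joukowski variable. -/
theorem a_mod (ζ u : ℂ) (hu : u ≠ 0) (h : u + u⁻¹ = 2 * ζ) : ‖u‖ + ‖u‖⁻¹ = ‖ζ - 1‖ + ‖ζ + 1‖ := by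
  obtain ⟨w, hw⟩ := IsAlgClosed.exists_pow_nat_eq u (n := 2) (by norm_num)
  have hw0 : w ≠ 0 := by
    rintro rfl
    apply hu
    rw [← hw]; simp
  have e1 : (w - w⁻¹) * (w - w⁻¹) = 2 * (ζ - 1) := by
    have : w * w⁻¹ = 1 := mul_inv_cancel₀ hw0
    have hi : u⁻¹ = w⁻¹ ^ 2 := by rw [← hw, inv_pow]
    rw [hi, ← hw] at h
    linear_combination h - 2 * this
  have e2 : (w + w⁻¹) * (w + w⁻¹) = 2 * (ζ + 1) := by
    have : w * w⁻¹ = 1 := mul_inv_cancel₀ hw0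
    have hi : u⁻¹ = w⁻¹ ^ 2 := by rw [← hw, inv_pow]
    rw [hi, ← hw] at h
    linear_combination h + 2 * this
  have n1 : ‖w - w⁻¹‖ * ‖w - w⁻¹‖ = 2 * ‖ζ - 1‖ := by
    rw [← norm_mul, e1, norm_mul]; simp
  have n2 : ‖w + w⁻¹‖ * ‖w + w⁻¹‖ = 2 * ‖ζ + 1‖ := by
    rw [← norm_mul, e2, norm_mul]; simp
  have par := parallelogram_law_with_norm ℝ w w⁻¹
  have n3 : ‖w‖ * ‖w‖ = ‖u‖ := by rw [← norm_mul, ← sq, hw]
  have n4 : ‖w⁻¹‖ * ‖w⁻¹‖ = ‖u‖⁻¹ := by rw [← norm_mul, ← sq, inv_pow, hw, norm_inv]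
  simp only [sq] at par
  rw [n1, n2, n3, n4] at par
  linarith

/-- `t + 1/t ≤ 2 + 4 ρ` implies `t ≤ exp (2 √ρ)`. -/
theorem a_exp (t ρ : ℝ) (ht : 1 ≤ t) (hρ : 0 ≤ ρ) (h : t + t⁻¹ ≤ 2 + 4 * ρ) : t ≤ Real.exp (2 * Real.sqrt ρ) := by
  have ht0 : 0 < t := by linarith
  set s := Real.sqrt t with hs
  have hs2 : s ^ 2 = t := Real.sq_sqrt ht0.le
  have hs1 : 1 ≤ s := by rw [hs]; exact Real.one_le_sqrt.2 ht
  have hs0 : 0 < s := by linarith
  have h1 : (s - s⁻¹) ^ 2 ≤ (2 * Real.sqrt ρ) ^ 2 := by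
    have e : (s - s⁻¹) ^ 2 = t + t⁻¹ - 2 := by
      have h3 : s * s⁻¹ = 1 := mul_inv_cancel₀ hs0.ne'
      have h4 : t⁻¹ = s⁻¹ ^ 2 := by rw [← hs2, inv_pow]
      rw [h4, ← hs2]
      linear_combination -2 * h3
    rw [e, mul_pow, Real.sq_sqrt hρ]
    linarith
  have h2 : s - s⁻¹ ≤ 2 * Real.sqrt ρ := by
    have := abs_le_of_sq_le_sq' h1 (by positivity)
    exact this.2
  have h3 : 2 * Real.log s ≤ s - s⁻¹ := by
    have h4 : Real.log s ≤ Real.sinh (Real.log s) := Real.self_le_sinh_iff.2 (Real.log_nonneg hs1)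
    rw [Real.sinh_log hs0] at h4
    linarith
  have h5 : Real.log t = 2 * Real.log s := by rw [← hs2, Real.log_pow]; norm_num
  rw [← Real.log_le_iff_le_exp ht0, h5]
  linarith

/-- The polynomial `u ^ N P((u + 1)² / (4 u))`. -/
noncomputable def aR (P : ℂ[X]) (N : ℕ) : ℂ[X] :=
  ∑ k ∈ Finset.range (N + 1), C (P.coeff k / 4 ^ k) * (X ^ (N - k) * (X + 1) ^ (2 * k))

theorem aR_deg (P : ℂ[X]) (N : ℕ) : (aR P N).natDegree ≤ 2 * N := by
  unfold aR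
  refine natDegree_sum_le_of_forall_le _ _ ?_
  intro k hk
  rw [Finset.mem_range] at hk
  refine (natDegree_C_mul_le _ _).trans ((natDegree_mul_le).trans ?_)
  have h1 : ((X : ℂ[X]) ^ (N - k)).natDegree ≤ N - k := natDegree_X_pow_le _
  have h2 : (((X : ℂ[X]) + 1) ^ (2 * k)).natDegree ≤ 2 * k := by
    refine natDegree_pow_le.trans ?_
    have : ((X : ℂ[X]) + 1).natDegree ≤ 1 := by
      have := natDegree_X_add_C (1 : ℂ)
      rw [C_1] at this
      exact this.le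
    calc 2 * k * ((X : ℂ[X]) + 1).natDegree ≤ 2 * k * 1 := Nat.mul_le_mul_left _ this
      _ = 2 * k := mul_one _
  omega

theorem aR_eval (P : ℂ[X]) (N : ℕ) (hN : P.natDegree ≤ N) (u : ℂ) (hu : u ≠ 0) :
    (aR P N).eval u = u ^ N * P.eval ((2 + u + u⁻¹) / 4) := by
  unfold aR
  rw [eval_finset_sum, eval_eq_sum_range' (Nat.lt_succ_of_le hN), Finset.mul_sum]
  apply Finset.sum_congr rfl
  intro k hk
  rw [Finset.mem_range] at hk
  have e : (2 + u + u⁻¹) / 4 = (u + 1) ^ 2 / (4 * u) := by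
    field_simp
    ring
  have e2 : u ^ N = u ^ (N - k) * u ^ k := by
    rw [← pow_add]
    congr 1
    omega
  rw [e, e2]
  simp only [eval_mul, eval_C, eval_pow, eval_X, eval_add, eval_one]
  rw [div_pow, mul_pow, pow_mul]
  field_simp

/-- **Bernstein-Walsh.** -/
theorem a_bw (P : ℂ[X]) (N : ℕ) (hN : P.natDegree ≤ N) (c : ℝ) (hc0 : 0 ≤ c)
    (hc : ∀ x : ℝ, x ∈ Set.Icc (0:ℝ) 1 → ‖P.eval (x:ℂ)‖ ≤ c) (x : ℝ) (hx : x ∈ Set.Icc (0:ℝ) 1) (z : ℂ) (ρ : ℝ)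
    (hz : ‖z‖ ≤ ρ) : ‖P.eval ((x:ℂ) + z)‖ ≤ c * Real.exp (2 * N * Real.sqrt ρ) := by
  have hρ : 0 ≤ ρ := (norm_nonneg z).trans hz
  obtain ⟨u, hu1, hu0, hu⟩ := a_jouk (2 * ((x:ℂ) + z) - 1)
  have hw : (2 + u + u⁻¹) / 4 = (x:ℂ) + z := by linear_combination hu / 4
  have hmod := a_mod _ u hu0 hu
  have hle : ‖u‖ + ‖u‖⁻¹ ≤ 2 + 4 * ρ := by
    rw [hmod]
    have b1 : ‖2 * ((x:ℂ) + z) - 1 - 1‖ ≤ (2 - 2 * x) + 2 * ρ := by
      have e : 2 * ((x:ℂ) + z) - 1 - 1 = ((-(2 - 2 * x) : ℝ) : ℂ) + 2 * z := by push_cast; ring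
      rw [e]
      refine (norm_add_le _ _).trans ?_
      have e2 : ‖((-(2 - 2 * x) : ℝ) : ℂ)‖ = 2 - 2 * x := by
        rw [Complex.norm_real, Real.norm_eq_abs, abs_neg, abs_of_nonneg (by linarith [hx.2])]
      have e3 : ‖2 * z‖ = 2 * ‖z‖ := by rw [norm_mul]; simp
      rw [e2, e3]
      linarith
    have b2 : ‖2 * ((x:ℂ) + z) - 1 + 1‖ ≤ 2 * x + 2 * ρ := by
      have e : 2 * ((x:ℂ) + z) - 1 + 1 = ((2 * x : ℝ) : ℂ) + 2 * z := by push_cast; ring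
      rw [e]
      refine (norm_add_le _ _).trans ?_
      have e2 : ‖((2 * x : ℝ) : ℂ)‖ = 2 * x := by
        rw [Complex.norm_real, Real.norm_eq_abs, abs_of_nonneg (by linarith [hx.1])]
      have e3 : ‖2 * z‖ = 2 * ‖z‖ := by rw [norm_mul]; simp
      rw [e2, e3]
      linarith
    linarith
  have hexp := a_exp ‖u‖ ρ hu1 hρ hle
  -- the bound on the circle
  have hcirc : ∀ v : ℂ, ‖v‖ = 1 → ‖(aR P N).eval v‖ ≤ c := by
    intro v hv
    have hv0 : v ≠ 0 := by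
      rintro rfl
      simp at hv
    rw [aR_eval P N hN v hv0, norm_mul, norm_pow, hv, one_pow, one_mul]
    have hinv : v⁻¹ = (starRingEnd ℂ) v := by
      rw [Complex.inv_def, Complex.normSq_eq_norm_sq, hv]
      simp
    have e : (2 + v + v⁻¹) / 4 = (((1 + v.re) / 2 : ℝ) : ℂ) := by
      rw [hinv]
      have := Complex.add_conj v
      push_cast at this ⊢
      linear_combination this / 4
    rw [e]
    apply hc
    have h1 := Complex.abs_re_le_norm v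
    rw [hv, abs_le] at h1
    constructor <;> linarith [h1.1, h1.2]
  have hR := a_circle (aR P N) (2 * N) (aR_deg P N) c hcirc u hu1
  rw [aR_eval P N hN u hu0, hw, norm_mul, norm_pow] at hR
  have hun : 0 < ‖u‖ ^ N := by positivity
  have h2 : ‖P.eval ((x:ℂ) + z)‖ ≤ c * ‖u‖ ^ N := by
    have e : c * ‖u‖ ^ (2 * N) = ‖u‖ ^ N * (c * ‖u‖ ^ N) := by rw [two_mul, pow_add]; ring
    rw [e] at hR
    exact le_of_mul_le_mul_left hR hun
  refine h2.trans (mul_le_mul_of_nonneg_left ?_ hc0)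
  calc ‖u‖ ^ N ≤ (Real.exp (2 * Real.sqrt ρ)) ^ N := pow_le_pow_left₀ (norm_nonneg _) hexp N
    _ = Real.exp (2 * N * Real.sqrt ρ) := by
      rw [← Real.exp_nat_mul]
      congr 1
      ring

end Pool.Agent.Lib.H35E
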