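import Pool.Agent.Lib.H35E.A
import Pool.Agent.Lib.H32P.G3

/-!
# H35E B: the resultant with a multiple factor

`T = Q ^ k S`, `Q` irreducible with all zeros in `[0,1]`, `Q` not dividing `S`: the integer polynomial `S (Q') ^ k` has no common zero with
`Q`, and at a zero `α` of `Q` it is `r ^ (-k)` times a value bounded by the maximum of `T` on the circle of radius `r` around `α`.
-/

namespace Pool.Agent.Lib.H35E

open Polynomial Metric Pool.Agent.Lib.H32P

theorem b_cauchy (W : ℂ[X]) (α : ℂ) (r : ℝ) (hr : 0 < r) (M : ℝ)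
    (h : ∀ z : ℂ, ‖z‖ = r → ‖W.eval (α + z)‖ ≤ M) : ‖W.eval α‖ ≤ M := by
  refine Complex.norm_le_of_forall_mem_frontier_norm_le (U := ball α r) isBounded_ball
    (f := fun z => W.eval z) ?_ ?_ ?_
  · exact W.differentiable.diffContOnCl
  · intro z hz
    rw [frontier_ball _ hr.ne', mem_sphere_iff_norm] at hz
    have := h (z - α) hz
    rwa [add_sub_cancel] at this
  · rw [closure_ball _ hr.ne']
    exact mem_closedBall_self hr.le

theorem b_local (T Q S : ℂ[X]) (k : ℕ) (hT : T = Q ^ k * S) (α : ℂ) (hα : Q.IsRoot α) (r M : ℝ) (hr : 0 < r)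
    (h : ∀ z : ℂ, ‖z‖ = r → ‖T.eval (α + z)‖ ≤ M) : ‖(S * (derivative Q) ^ k).eval α‖ * r ^ k ≤ M := by
  obtain ⟨Q1, hQ1⟩ := dvd_iff_isRoot.2 hα
  have hder : (derivative Q).eval α = Q1.eval α := by
    rw [hQ1, derivative_mul]
    simp
  have hW : ∀ z : ℂ, (S * Q1 ^ k).eval (α + z) * z ^ k = T.eval (α + z) := by
    intro z
    rw [hT, hQ1]
    simp only [eval_mul, eval_pow, eval_sub, eval_X, eval_C]
    rw [add_sub_cancel_left, mul_pow]
    ring
  have hrk : 0 < r ^ k := by positivity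
  have h1 := b_cauchy (S * Q1 ^ k) α r hr (M / r ^ k) (by
    intro z hz
    rw [le_div_iff₀ hrk, ← hz, ← norm_pow, ← norm_mul, hW z]
    exact h z hz)
  rw [le_div_iff₀ hrk] at h1
  rw [eval_mul, eval_pow, hder, ← eval_pow, ← eval_mul]
  exact h1

theorem b_coprime {Q S : ℤ[X]} (hQ : Irreducible Q) (hd : 0 < Q.natDegree) (hn : ¬ Q ∣ S) :
    IsCoprime (Q.map (Int.castRingHom ℂ)) (S.map (Int.castRingHom ℂ)) := by
  have hprim : Q.IsPrimitive := hQ.isPrimitive (by omega)
  have hirr : Irreducible (Q.map (Int.castRingHom ℚ)) :=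
    (IsPrimitive.Int.irreducible_iff_irreducible_map_cast hprim).1 hQ
  have hinj : Function.Injective (Int.castRingHom ℚ) := RingHom.injective_int _
  have h1 : IsCoprime (Q.map (Int.castRingHom ℚ)) (S.map (Int.castRingHom ℚ)) := by
    rw [hirr.coprime_iff_not_dvd]
    intro hdvd
    exact hn ((IsPrimitive.Int.dvd_iff_map_cast_dvd_map_cast Q S hprim).2 hdvd)
  have h2 := h1.map (mapRingHom (algebraMap ℚ ℂ))
  rw [coe_mapRingHom, Polynomial.map_map, Polynomial.map_map] at h2
  have h3 : (algebraMap ℚ ℂ).comp (Int.castRingHom ℚ) = Int.castRingHom ℂ := RingHom.ext_int _ _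
  rw [h3] at h2
  exact h2

theorem b_res {Q P : ℤ[X]} (hcop : IsCoprime (Q.map (Int.castRingHom ℂ)) (P.map (Int.castRingHom ℂ))) {m : ℝ}
    (hm : ∀ z : ℂ, aeval z Q = 0 → ‖aeval z P‖ ≤ m) :
    1 ≤ |((Q.leadingCoeff : ℤ) : ℝ)| ^ P.natDegree * m ^ Q.natDegree := by
  have hinj : Function.Injective (Int.castRingHom ℂ) := RingHom.injective_int _
  have hdq : (Q.map (Int.castRingHom ℂ)).natDegree = Q.natDegree := natDegree_map_eq_of_injective hinj Q
  have hdp : (P.map (Int.castRingHom ℂ)).natDegree = P.natDegree := natDegree_map_eq_of_injective hinj P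
  have hspl : (Q.map (Int.castRingHom ℂ)).Splits := IsAlgClosed.splits _
  have hres := resultant_eq_prod_eval (Q.map (Int.castRingHom ℂ)) (P.map (Int.castRingHom ℂ))
    (P.map (Int.castRingHom ℂ)).natDegree le_rfl hspl
  have hne := resultant_ne_zero _ _ hcop
  have hmap : resultant (Q.map (Int.castRingHom ℂ)) (P.map (Int.castRingHom ℂ))
      (Q.map (Int.castRingHom ℂ)).natDegree (P.map (Int.castRingHom ℂ)).natDegree =
      ((resultant Q P : ℤ) : ℂ) := by
    rw [hdq, hdp]
    exact resultant_map_map Q P _ _ (Int.castRingHom ℂ)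
  rw [hmap] at hne hres
  have h1 : (1:ℝ) ≤ ‖((resultant Q P : ℤ) : ℂ)‖ := by
    rw [Complex.norm_intCast]
    have h0 : resultant Q P ≠ 0 := fun h => hne (by rw [h]; simp)
    exact_mod_cast Int.one_le_abs h0
  rw [hres, norm_mul, norm_pow, leadingCoeff_map_of_injective hinj, hdp, eq_intCast,
    Complex.norm_intCast] at h1
  refine h1.trans (mul_le_mul_of_nonneg_left ?_ (by positivity))
  have h2 : ‖((Q.map (Int.castRingHom ℂ)).roots.map (P.map (Int.castRingHom ℂ)).eval).prod‖ =
      ((Q.map (Int.castRingHom ℂ)).roots.map (fun z => ‖(P.map (Int.castRingHom ℂ)).eval z‖)).prod := by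
    rw [← coe_nnnorm]
    have := map_multiset_prod (normHom : ℂ →*₀ ℝ)
      ((Q.map (Int.castRingHom ℂ)).roots.map (P.map (Int.castRingHom ℂ)).eval)
    rw [Multiset.map_map] at this
    exact this
  rw [h2]
  have h3 := Multiset.prod_map_le_prod_map₀ (s := (Q.map (Int.castRingHom ℂ)).roots)
    (fun z => ‖(P.map (Int.castRingHom ℂ)).eval z‖) (fun _ => m) (fun z _ => norm_nonneg _) (by
      intro z hz
      have hz' := (mem_roots'.1 hz).2
      rw [IsRoot.def, eval_map] at hz'
      have := hm z hz'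
      rw [eval_map]
      exact this)
  refine h3.trans (le_of_eq ?_)
  rw [Multiset.map_const', Multiset.prod_replicate, ← hdq, hspl.natDegree_eq_card_roots]

/-- **The main inequality.** -/
theorem b_main (Q T : ℤ[X]) (hQ : Irreducible Q) (hd : 0 < Q.natDegree)
    (hz : ∀ z : ℂ, aeval z Q = 0 → z.im = 0 ∧ 0 ≤ z.re ∧ z.re ≤ 1) (hT : T ≠ 0) (n : ℕ) (hTn : T.natDegree ≤ n)
    (c : ℝ) (hc0 : 0 < c) (hc : ∀ x ∈ Set.Icc (0:ℝ) 1, |aeval x T| ≤ c) (r : ℝ) (hr : 0 < r) (k : ℕ) (hk : Q ^ k ∣ T)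
    (hk' : ¬ Q ^ (k + 1) ∣ T) :
    0 ≤ n * Real.log |((Q.leadingCoeff : ℤ) : ℝ)| + Q.natDegree * Real.log c +
      2 * Q.natDegree * n * Real.sqrt r + k * Q.natDegree * Real.log (1 / r) := by
  obtain ⟨S, hS⟩ := hk
  have hS0 : S ≠ 0 := by
    rintro rfl
    rw [mul_zero] at hS
    exact hT hS
  have hQ0 : Q ≠ 0 := hQ.ne_zero
  have hQS : ¬ Q ∣ S := by
    rintro ⟨S', hS'⟩
    apply hk'
    exact ⟨S', by rw [hS, hS', pow_succ]; ring⟩
  have hder0 : derivative Q ≠ 0 := by
    intro h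
    have := derivative_eq_zero.1 h
    omega
  have hdd : (derivative Q).natDegree < Q.natDegree := natDegree_derivative_lt (by omega)
  set P : ℤ[X] := S * (derivative Q) ^ k with hP
  have hcop : IsCoprime (Q.map (Int.castRingHom ℂ)) (P.map (Int.castRingHom ℂ)) := by
    rw [hP, Polynomial.map_mul, Polynomial.map_pow]
    exact (b_coprime hQ hd hQS).mul_right ((g3_coprime hQ hder0 hdd).pow_right)
  have hPn : P.natDegree ≤ n := by
    have h1 : P.natDegree ≤ S.natDegree + k * (derivative Q).natDegree := by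
      rw [hP]
      exact natDegree_mul_le.trans (Nat.add_le_add_left natDegree_pow_le _)
    have h2 : T.natDegree = k * Q.natDegree + S.natDegree := by
      rw [hS, natDegree_mul (pow_ne_zero _ hQ0) hS0, natDegree_pow]
    have h3 : k * (derivative Q).natDegree ≤ k * Q.natDegree := Nat.mul_le_mul_left _ hdd.le
    omega
  set M : ℝ := c * Real.exp (2 * n * Real.sqrt r) with hM
  have hM0 : 0 < M := by positivity
  have hrk : 0 < r ^ k := by positivity
  have hres := b_res hcop (m := M / r ^ k) (by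
    intro z hz0
    obtain ⟨h1, h2, h3⟩ := hz z hz0
    have hz' : z = ((z.re : ℝ) : ℂ) := by
      apply Complex.ext
      · simp
      · simpa using h1
    have hroot : (Q.map (Int.castRingHom ℂ)).IsRoot z := by
      rw [IsRoot.def, eval_map]
      exact hz0
    have hTm : T.map (Int.castRingHom ℂ) = (Q.map (Int.castRingHom ℂ)) ^ k * S.map (Int.castRingHom ℂ) := by
      rw [hS, Polynomial.map_mul, Polynomial.map_pow]
    have hb := b_local (T.map (Int.castRingHom ℂ)) (Q.map (Int.castRingHom ℂ)) (S.map (Int.castRingHom ℂ)) k hTm z hroot r M hr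
      (by
        intro w hw
        rw [hz']
        refine a_bw (T.map (Int.castRingHom ℂ)) n ((natDegree_map_le).trans hTn) c hc0.le ?_ z.re ⟨h2, h3⟩ w r hw.le
        intro x hx
        have h5 : (T.map (Int.castRingHom ℂ)).eval ((x : ℝ) : ℂ) = ((aeval x T : ℝ) : ℂ) := by
          rw [eval_map]
          exact aeval_algebraMap_apply ℂ x T
        rw [h5, Complex.norm_real]
        exact hc x hx)
    rw [le_div_iff₀ hrk]
    have h6 : aeval z P = (S.map (Int.castRingHom ℂ) * (derivative (Q.map (Int.castRingHom ℂ))) ^ k).eval z := by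
      rw [hP, derivative_map, ← Polynomial.map_pow, ← Polynomial.map_mul, eval_map]
      rfl
    rw [h6]
    exact hb)
  have hlc : Q.leadingCoeff ≠ 0 := leadingCoeff_ne_zero.2 hQ0
  have ha1 : (1:ℝ) ≤ |((Q.leadingCoeff : ℤ) : ℝ)| := by
    exact_mod_cast Int.one_le_abs hlc
  have ha0 : (0:ℝ) < |((Q.leadingCoeff : ℤ) : ℝ)| := by linarith
  have hm0 : 0 < M / r ^ k := by positivity
  have hlog := Real.log_le_log one_pos hres
  rw [Real.log_one, Real.log_mul (by positivity) (by positivity), Real.log_pow, Real.log_pow,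
    Real.log_div hM0.ne' hrk.ne', Real.log_pow, hM, Real.log_mul hc0.ne' (Real.exp_pos _).ne', Real.log_exp] at hlog
  have h7 : (P.natDegree : ℝ) * Real.log |((Q.leadingCoeff : ℤ) : ℝ)| ≤ n * Real.log |((Q.leadingCoeff : ℤ) : ℝ)| :=
    mul_le_mul_of_nonneg_right (by exact_mod_cast hPn) (Real.log_nonneg ha1)
  have h8 : Real.log (1 / r) = -Real.log r := by rw [one_div, Real.log_inv]
  rw [h8]
  calc (0:ℝ) ≤ _ := hlog
    _ ≤ n * Real.log |((Q.leadingCoeff : ℤ) : ℝ)| +
        Q.natDegree * (Real.log c + 2 * n * Real.sqrt r - k * Real.log r) := by linarith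
    _ = _ := by ring

end Pool.Agent.Lib.H35E
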