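import Pool.Agent.Lib.H35E.B
import Pool.Agent.Lib.H32R.F5

/-!
# H35E C: consequences for the integer transfinite diameter
-/

namespace Pool.Agent.Lib.H35E

open Polynomial Filter Topology Pool.Agent.Lib.H32P

/-- Nearly optimal polynomials. -/
theorem c_T {τ : ℝ} (hτ : IsTau τ) {τ' : ℝ} (h : τ < τ') :
    ∃ n : ℕ, 1 ≤ n ∧ ∃ T : ℤ[X], T ≠ 0 ∧ T.natDegree ≤ n ∧ ∀ x ∈ Set.Icc (0:ℝ) 1, |aeval x T| ≤ τ' ^ n := by
  have hτ0 := g2_pos hτ
  have hev : ∀ᶠ n : ℕ in atTop, (sInf (mset n)) ^ ((1:ℝ) / (n:ℝ)) < τ' := hτ.eventually_lt_const h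
  obtain ⟨n, hn1, hn2⟩ := (hev.and (eventually_ge_atTop 1)).exists
  have hn0 : (0:ℝ) < n := by exact_mod_cast hn2
  have hnn : 0 ≤ sInf (mset n) := g1_inf_nonneg n
  have hlt : sInf (mset n) < τ' ^ n := by
    have h1 : ((sInf (mset n)) ^ ((1:ℝ) / (n:ℝ))) ^ n < τ' ^ n :=
      pow_lt_pow_left₀ hn1 (Real.rpow_nonneg hnn _) (by omega)
    rwa [← Real.rpow_natCast, ← Real.rpow_mul hnn, one_div, inv_mul_cancel₀ hn0.ne', Real.rpow_one] at h1
  have hne : (mset n).Nonempty := ⟨_, 1, one_ne_zero, by simp, rfl⟩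
  obtain ⟨y, ⟨P, hP0, hPn, rfl⟩, hy⟩ := exists_lt_of_csInf_lt hne hlt
  exact ⟨n, hn2, P, hP0, hPn, fun x hx => (g1_le P hx).trans hy.le⟩

/-- The multiplicity. -/
theorem c_mult (Q T : ℤ[X]) (hd : 0 < Q.natDegree) (hT : T ≠ 0) : ∃ k : ℕ, Q ^ k ∣ T ∧ ¬ Q ^ (k + 1) ∣ T := by
  classical
  have hex : ∃ k : ℕ, ¬ Q ^ (k + 1) ∣ T := by
    refine ⟨T.natDegree, fun hdvd => ?_⟩
    have h1 := natDegree_le_of_dvd hdvd hT
    rw [natDegree_pow] at h1
    nlinarith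
  refine ⟨Nat.find hex, ?_, Nat.find_spec hex⟩
  by_cases h0 : Nat.find hex = 0
  · rw [h0, pow_zero]
    exact one_dvd T
  · obtain ⟨j, hj⟩ := Nat.exists_eq_succ_of_ne_zero h0
    have := Nat.find_min hex (m := j) (by omega)
    rw [not_not] at this
    rw [hj]
    exact this

/-- The masses of pairwise nonassociated factors. -/
theorem c_sum (F : Finset ℤ[X]) (hF : ∀ Q ∈ F, Irreducible Q)
    (hp : (F : Set ℤ[X]).Pairwise fun Q Q' => ¬ Associated Q Q') (T : ℤ[X]) (hT : T ≠ 0) (k : ℤ[X] → ℕ)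
    (hk : ∀ Q ∈ F, Q ^ k Q ∣ T) : ∑ Q ∈ F, k Q * Q.natDegree ≤ T.natDegree := by
  have hdvd : ∏ Q ∈ F, Q ^ k Q ∣ T := by
    apply Finset.prod_dvd_of_isRelPrime
    · intro Q hQ Q' hQ' hne
      apply IsRelPrime.pow
      rw [(hF Q hQ).isRelPrime_iff_not_dvd]
      intro h
      exact hp hQ hQ' hne ((hF Q hQ).associated_of_dvd (hF Q' hQ') h)
    · exact hk
  have h1 := natDegree_le_of_dvd hdvd hT
  rw [natDegree_prod _ _ (fun Q hQ => pow_ne_zero _ (hF Q hQ).ne_zero)] at h1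
  refine le_trans (le_of_eq ?_) h1
  apply Finset.sum_congr rfl
  intro Q _
  rw [natDegree_pow]

/-- The conditions on `Q`. -/
def Zer (Q : ℤ[X]) : Prop :=
  Irreducible Q ∧ 0 < Q.natDegree ∧ ∀ z : ℂ, aeval z Q = 0 → z.im = 0 ∧ 0 ≤ z.re ∧ z.re ≤ 1

theorem c_mass {τ : ℝ} (hτ : IsTau τ) {τ' : ℝ} (h : τ < τ') (F : Finset ℤ[X]) (hF : ∀ Q ∈ F, Zer Q)
    (hp : (F : Set ℤ[X]).Pairwise fun Q Q' => ¬ Associated Q Q') :
    ∃ m : ℤ[X] → ℝ, (∀ Q ∈ F, 0 ≤ m Q) ∧ ∑ Q ∈ F, m Q ≤ 1 ∧ ∀ Q ∈ F, ∀ r : ℝ, 0 < r →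
      -(Real.log |((Q.leadingCoeff : ℤ) : ℝ)| + Q.natDegree * Real.log τ') ≤
        2 * Q.natDegree * Real.sqrt r + m Q * Real.log (1 / r) := by
  classical
  have hτ0 := g2_pos hτ
  have hτ'0 : 0 < τ' := hτ0.trans h
  obtain ⟨n, hn, T, hT, hTn, hTx⟩ := c_T hτ h
  have hn0 : (0:ℝ) < n := by exact_mod_cast hn
  choose! k hk hk' using fun (Q : ℤ[X]) (hQ : Q ∈ F) => c_mult Q T (hF Q hQ).2.1 hT
  refine ⟨fun Q => (k Q * Q.natDegree : ℕ) / (n : ℝ), fun Q _ => by positivity, ?_, ?_⟩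
  · rw [← Finset.sum_div, div_le_one hn0, ← Nat.cast_sum]
    exact_mod_cast (c_sum F (fun Q hQ => (hF Q hQ).1) hp T hT k hk).trans hTn
  · intro Q hQ r hr
    have hb := b_main Q T (hF Q hQ).1 (hF Q hQ).2.1 (hF Q hQ).2.2 hT n hTn (τ' ^ n) (by positivity) hTx r hr (k Q)
      (hk Q hQ) (hk' Q hQ)
    rw [Real.log_pow] at hb
    simp only
    push_cast
    have e : (n:ℝ) * (-(Real.log |((Q.leadingCoeff : ℤ) : ℝ)| + Q.natDegree * Real.log τ')) ≤
        n * (2 * Q.natDegree * Real.sqrt r + (k Q * Q.natDegree : ℝ) / n * Real.log (1 / r)) := by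
      have e2 : (n:ℝ) * ((k Q * Q.natDegree : ℝ) / n * Real.log (1 / r)) = k Q * Q.natDegree * Real.log (1 / r) := by
        field_simp
      rw [mul_add, e2]
      linarith
    exact le_of_mul_le_mul_left e hn0

/-- The function `G / (6 (1 + log (d / G)))`. -/
theorem c_phi (d G m : ℝ) (hd : 1 ≤ d) (hG : 0 < G) (hG1 : G ≤ 1)
    (h : ∀ r : ℝ, 0 < r → G ≤ 2 * d * Real.sqrt r + m * Real.log (1 / r)) :
    G / (6 * (1 + Real.log (d / G))) ≤ m := by
  by_contra hcon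
  push Not at hcon
  have hd0 : 0 < d := by linarith
  have hdG : 1 ≤ d / G := by
    rw [le_div_iff₀ hG]
    linarith
  set l : ℝ := 1 + Real.log (d / G) with hl
  have hl1 : 1 ≤ l := by
    have := Real.log_nonneg hdG
    linarith
  have hl0 : 0 < l := by linarith
  set m0 : ℝ := G / (6 * l) with hm0
  have hm00 : 0 < m0 := by positivity
  have hG' : G = 6 * l * m0 := by
    rw [hm0]
    field_simp
  have hr0 : 0 < (m0 / d) ^ 2 := by positivity
  have h1 := h ((m0 / d) ^ 2) hr0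
  rw [Real.sqrt_sq (by positivity)] at h1
  have h2 : Real.log (1 / (m0 / d) ^ 2) = 2 * (Real.log (d / G) + Real.log 6 + Real.log l) := by
    have e : 1 / (m0 / d) ^ 2 = ((d / G) * 6 * l) ^ 2 := by
      rw [hm0]
      field_simp
    rw [e, Real.log_pow, Real.log_mul (by positivity) hl0.ne', Real.log_mul (by positivity) (by norm_num)]
    norm_num
  have h6 : Real.log 6 < 2 := by
    rw [Real.log_lt_iff_lt_exp (by norm_num)]
    have := Real.exp_one_gt_d9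
    have e : Real.exp 2 = Real.exp 1 * Real.exp 1 := by rw [← Real.exp_add]; norm_num
    rw [e]
    nlinarith
  have hll : Real.log l ≤ l - 1 := Real.log_le_sub_one_of_pos hl0
  have hl60 : 0 < Real.log 6 := Real.log_pos (by norm_num)
  have hlln : 0 ≤ Real.log l := Real.log_nonneg hl1
  have hdGn : 0 ≤ Real.log (d / G) := Real.log_nonneg hdG
  have h3 : Real.log (d / G) + Real.log 6 + Real.log l < 2 * l := by
    have : Real.log (d / G) = l - 1 := by rw [hl]; ring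
    linarith
  have h4 : 2 * d * (m0 / d) = 2 * m0 := by field_simp
  rw [h2, h4] at h1
  have h5 : m * (2 * (Real.log (d / G) + Real.log 6 + Real.log l)) ≤
      m0 * (2 * (Real.log (d / G) + Real.log 6 + Real.log l)) :=
    mul_le_mul_of_nonneg_right hcon.le (by linarith)
  have h7 : m0 * (2 * (Real.log (d / G) + Real.log 6 + Real.log l)) < m0 * (2 * (2 * l)) :=
    mul_lt_mul_of_pos_left (by linarith) hm00
  nlinarith

/-- **The lower bound for the leading coefficient.** -/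
theorem c_lower {τ : ℝ} (hτ : IsTau τ) (Q : ℤ[X]) (hQ : Zer Q) :
    1 ≤ 8 * (Q.natDegree : ℝ) ^ 2 * (|((Q.leadingCoeff : ℤ) : ℝ)| * τ ^ Q.natDegree) := by
  have hτ0 := g2_pos hτ
  have hd : (1:ℝ) ≤ Q.natDegree := by exact_mod_cast hQ.2.1
  have hd0 : (0:ℝ) < Q.natDegree := by linarith
  have hlc : Q.leadingCoeff ≠ 0 := leadingCoeff_ne_zero.2 hQ.1.ne_zero
  have ha1 : (1:ℝ) ≤ |((Q.leadingCoeff : ℤ) : ℝ)| := by
    exact_mod_cast Int.one_le_abs hlc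
  have ha0 : (0:ℝ) < |((Q.leadingCoeff : ℤ) : ℝ)| := by linarith
  have key : ∀ τ' : ℝ, τ < τ' →
      -(Real.log |((Q.leadingCoeff : ℤ) : ℝ)| + Q.natDegree * Real.log τ') ≤ 2 + 2 * Real.log Q.natDegree := by
    intro τ' h
    obtain ⟨m, hm0, hm1, hm⟩ := c_mass hτ h {Q} (by simpa using hQ) (by simp)
    have h1 := hm Q (Finset.mem_singleton_self Q) ((1 / (Q.natDegree : ℝ)) ^ 2) (by positivity)
    rw [Finset.sum_singleton] at hm1
    rw [Real.sqrt_sq (by positivity)] at h1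
    have e1 : 2 * (Q.natDegree : ℝ) * (1 / Q.natDegree) = 2 := by field_simp
    have e2 : Real.log (1 / (1 / (Q.natDegree : ℝ)) ^ 2) = 2 * Real.log Q.natDegree := by
      have : 1 / (1 / (Q.natDegree : ℝ)) ^ 2 = (Q.natDegree : ℝ) ^ 2 := by field_simp
      rw [this, Real.log_pow]
      norm_num
    rw [e1, e2] at h1
    have h2 : m Q * (2 * Real.log Q.natDegree) ≤ 1 * (2 * Real.log Q.natDegree) :=
      mul_le_mul_of_nonneg_right hm1 (by have := Real.log_nonneg hd; positivity)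
    linarith
  have hlim : -(Real.log |((Q.leadingCoeff : ℤ) : ℝ)| + Q.natDegree * Real.log τ) ≤ 2 + 2 * Real.log Q.natDegree := by
    have hc : Tendsto (fun τ' : ℝ => -(Real.log |((Q.leadingCoeff : ℤ) : ℝ)| + Q.natDegree * Real.log τ')) (𝓝[>] τ)
        (𝓝 (-(Real.log |((Q.leadingCoeff : ℤ) : ℝ)| + Q.natDegree * Real.log τ))) := by
      apply Tendsto.mono_left _ nhdsWithin_le_nhds
      exact ((tendsto_const_nhds.add (tendsto_const_nhds.mul (Real.continuousAt_log hτ0.ne').tendsto))).neg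
    refine le_of_tendsto hc ?_
    filter_upwards [self_mem_nhdsWithin] with τ' h
    exact key τ' h
  have h8 : Real.log (8:ℝ) ≥ 2 := by
    rw [ge_iff_le, Real.le_log_iff_exp_le (by norm_num)]
    have := Real.exp_one_lt_d9
    have e : Real.exp 2 = Real.exp 1 * Real.exp 1 := by rw [← Real.exp_add]; norm_num
    rw [e]
    have := Real.exp_pos 1
    nlinarith
  have h9 : 0 ≤ Real.log (8 * (Q.natDegree : ℝ) ^ 2 * (|((Q.leadingCoeff : ℤ) : ℝ)| * τ ^ Q.natDegree)) := by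
    rw [Real.log_mul (by positivity) (by positivity), Real.log_mul (by norm_num) (by positivity),
      Real.log_mul ha0.ne' (by positivity), Real.log_pow, Real.log_pow]
    push_cast
    linarith
  exact (Real.log_nonneg_iff (by positivity)).1 h9

/-- Polynomials with positive leading coefficient. -/
theorem c_assoc (F : Finset ℤ[X]) (hF : ∀ Q ∈ F, 0 < Q.leadingCoeff) :
    (F : Set ℤ[X]).Pairwise fun Q Q' => ¬ Associated Q Q' := by
  intro Q hQ Q' hQ' hne has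
  obtain ⟨u, hu⟩ := has
  obtain ⟨c, hc, hcu⟩ := Polynomial.isUnit_iff.1 u.isUnit
  have h1 := hF Q hQ
  have h2 := hF Q' hQ'
  rcases Int.isUnit_iff.1 hc with h | h
  · apply hne
    rw [← hu, ← hcu, h]
    simp
  · rw [← hu, ← hcu, h] at h2
    rw [leadingCoeff_mul, leadingCoeff_C] at h2
    linarith

/-- The gap. -/
noncomputable def gap (τ : ℝ) (Q : ℤ[X]) : ℝ :=
  min 1 (-Real.log ((Q.leadingCoeff : ℝ) * τ ^ Q.natDegree))

/-- **Critical polynomials are sparse.** -/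
theorem c_sparse {τ : ℝ} (hτ : IsTau τ) (F : Finset ℤ[X]) (hF : ∀ Q ∈ F, Zer Q)
    (hlc : ∀ Q ∈ F, 0 < Q.leadingCoeff) (hcr : ∀ Q ∈ F, (Q.leadingCoeff : ℝ) * τ ^ Q.natDegree < 1) :
    ∑ Q ∈ F, gap τ Q / (1 + Real.log (Q.natDegree / gap τ Q)) ≤ 6 := by
  have hτ0 := g2_pos hτ
  have hg : ∀ Q ∈ F, 0 < gap τ Q := by
    intro Q hQ
    refine lt_min one_pos ?_
    have h1 : (0:ℝ) < Q.leadingCoeff := by exact_mod_cast hlc Q hQ
    have := Real.log_neg (by positivity : 0 < (Q.leadingCoeff : ℝ) * τ ^ Q.natDegree) (hcr Q hQ)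
    linarith
  -- continuity
  have hgc : ∀ Q ∈ F, Tendsto (fun τ' => gap τ' Q) (𝓝[>] τ) (𝓝 (gap τ Q)) := by
    intro Q hQ
    apply Tendsto.mono_left _ nhdsWithin_le_nhds
    have h1 : (0:ℝ) < Q.leadingCoeff := by exact_mod_cast hlc Q hQ
    unfold gap
    apply Tendsto.min tendsto_const_nhds
    apply Tendsto.neg
    have h2 : Tendsto (fun τ' : ℝ => (Q.leadingCoeff : ℝ) * τ' ^ Q.natDegree) (𝓝 τ)
        (𝓝 ((Q.leadingCoeff : ℝ) * τ ^ Q.natDegree)) := tendsto_const_nhds.mul (tendsto_id.pow _)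
    exact (Real.continuousAt_log (by positivity)).tendsto.comp h2
  have hfc : ∀ Q ∈ F, Tendsto (fun τ' => gap τ' Q / (6 * (1 + Real.log (Q.natDegree / gap τ' Q)))) (𝓝[>] τ)
      (𝓝 (gap τ Q / (6 * (1 + Real.log (Q.natDegree / gap τ Q))))) := by
    intro Q hQ
    have h0 := hg Q hQ
    have hd : (1:ℝ) ≤ Q.natDegree := by exact_mod_cast (hF Q hQ).2.1
    have h1 : gap τ Q ≤ 1 := min_le_left _ _
    have h2 : 1 ≤ (Q.natDegree : ℝ) / gap τ Q := by
      rw [le_div_iff₀ h0]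
      linarith
    have h3 := Real.log_nonneg h2
    apply Tendsto.div (hgc Q hQ)
    · apply Tendsto.const_mul
      apply Tendsto.const_add
      have h4 : Tendsto (fun τ' => (Q.natDegree : ℝ) / gap τ' Q) (𝓝[>] τ) (𝓝 ((Q.natDegree : ℝ) / gap τ Q)) :=
        Tendsto.div tendsto_const_nhds (hgc Q hQ) h0.ne'
      exact (Real.continuousAt_log (by positivity)).tendsto.comp h4
    · positivity
  have hev : ∀ᶠ τ' in 𝓝[>] τ, ∀ Q ∈ F, 0 < gap τ' Q := by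
    rw [Filter.eventually_all_finset]
    intro Q hQ
    exact (hgc Q hQ).eventually_const_lt (hg Q hQ)
  have hle : ∑ Q ∈ F, gap τ Q / (6 * (1 + Real.log (Q.natDegree / gap τ Q))) ≤ 1 := by
    refine le_of_tendsto (tendsto_finsetSum F hfc) ?_
    filter_upwards [hev, self_mem_nhdsWithin] with τ' h1 h2
    obtain ⟨m, hm0, hm1, hm⟩ := c_mass hτ h2 F hF (c_assoc F hlc)
    refine le_trans (Finset.sum_le_sum fun Q hQ => ?_) hm1
    have hd : (1:ℝ) ≤ Q.natDegree := by exact_mod_cast (hF Q hQ).2.1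
    refine c_phi Q.natDegree (gap τ' Q) (m Q) hd (h1 Q hQ) (min_le_left _ _) ?_
    intro r hr
    have h3 := hm Q hQ r hr
    refine le_trans ?_ h3
    have h4 : (0:ℝ) < Q.leadingCoeff := by exact_mod_cast hlc Q hQ
    have hτ'0 : 0 < τ' := hτ0.trans h2
    unfold gap
    refine (min_le_right _ _).trans (le_of_eq ?_)
    rw [Real.log_mul h4.ne' (by positivity), Real.log_pow, abs_of_pos h4]
  have e : ∑ Q ∈ F, gap τ Q / (1 + Real.log (Q.natDegree / gap τ Q)) =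
      6 * ∑ Q ∈ F, gap τ Q / (6 * (1 + Real.log (Q.natDegree / gap τ Q))) := by
    rw [Finset.mul_sum]
    apply Finset.sum_congr rfl
    intro Q _
    rw [mul_comm 6 (1 + _), ← div_div]
    ring
  rw [e]
  linarith

/-- The number of the strongly critical polynomials. -/
theorem c_count {τ : ℝ} (hτ : IsTau τ) (ε D : ℝ) (hε : 0 < ε) (hε1 : ε ≤ 1) (hD1 : 1 ≤ D) (F : Finset ℤ[X]) (hF : ∀ Q ∈ F, Zer Q)
    (hlc : ∀ Q ∈ F, 0 < Q.leadingCoeff) (hD : ∀ Q ∈ F, (Q.natDegree : ℝ) ≤ D)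
    (hcr : ∀ Q ∈ F, (Q.leadingCoeff : ℝ) * τ ^ Q.natDegree ≤ 1 - ε) :
    (F.card : ℝ) * ε ≤ 6 * (1 + Real.log (D / ε)) := by
  have hτ0 := g2_pos hτ
  have h1 := c_sparse hτ F hF hlc (fun Q hQ => by have := hcr Q hQ; linarith)
  have hDε : 1 ≤ D / ε := by
    rw [le_div_iff₀ hε]; linarith
  have hlD := Real.log_nonneg hDε
  have h2 : ∀ Q ∈ F, ε / (1 + Real.log (D / ε)) ≤ gap τ Q / (1 + Real.log (Q.natDegree / gap τ Q)) := by
    intro Q hQ
    have h4 : (0:ℝ) < Q.leadingCoeff := by exact_mod_cast hlc Q hQ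
    have hd : (1:ℝ) ≤ Q.natDegree := by exact_mod_cast (hF Q hQ).2.1
    have hge : ε ≤ gap τ Q := by
      refine le_min hε1 ?_
      have h5 := Real.log_le_sub_one_of_pos (by positivity : 0 < (Q.leadingCoeff : ℝ) * τ ^ Q.natDegree)
      have := hcr Q hQ
      linarith
    have hg0 : 0 < gap τ Q := hε.trans_le hge
    have hg1 : gap τ Q ≤ 1 := min_le_left _ _
    have h6 : 1 ≤ (Q.natDegree : ℝ) / gap τ Q := by
      rw [le_div_iff₀ hg0]; linarith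
    have h7 := Real.log_nonneg h6
    have h8 : Real.log (Q.natDegree / gap τ Q) ≤ Real.log (D / ε) := by
      apply Real.log_le_log (by positivity)
      exact div_le_div₀ (by linarith) (hD Q hQ) hε hge
    exact div_le_div₀ hg0.le hge (by linarith) (by linarith)
  have h3 := (Finset.sum_le_sum h2).trans h1
  rw [Finset.sum_const, nsmul_eq_mul, ← mul_div_assoc, div_le_iff₀ (by linarith)] at h3
  exact h3

/-- **The rate of convergence.** -/
theorem c_rate : ∃ C : ℕ, ∀ τ : ℝ, IsTau τ → ∀ n : ℕ, 1 ≤ n → ∃ P : ℤ[X], P ≠ 0 ∧ Pool.Agent.Lib.H32R.Fac n P ∧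
    ∀ x ∈ Set.Icc (0:ℝ) 1, |aeval x P| < (τ * ((n:ℝ) + 1) ^ ((C:ℝ) / n)) ^ P.natDegree := by
  obtain ⟨C, hC⟩ := Pool.Agent.Lib.H32R.f4_main
  refine ⟨C + 4, fun τ hτ n hn => ?_⟩
  have hτ0 := g2_pos hτ
  have hn0 : (0:ℝ) < n := by exact_mod_cast hn
  have hn1 : (1:ℝ) ≤ n := by exact_mod_cast hn
  by_contra hcon
  push Not at hcon
  set ρ : ℝ := τ * ((n:ℝ) + 1) ^ (((C + 4 : ℕ) : ℝ) / n) with hρ
  have hρ0 : 0 < ρ := by positivity
  have hρn : ρ ^ n = τ ^ n * ((n:ℝ) + 1) ^ (C + 4) := by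
    rw [hρ, mul_pow]
    congr 1
    rw [← Real.rpow_natCast, ← Real.rpow_mul (by positivity), div_mul_cancel₀ _ hn0.ne', Real.rpow_natCast]
  obtain ⟨Q, q1, q2, q3, q4, q5, q6⟩ := hC n hn ρ hρ0 (fun P hP hF => by
    obtain ⟨x, hx, hx2⟩ := hcon P hP hF
    exact ⟨x, hx, hx2⟩)
  rw [hρn] at q6
  have hlc : (0:ℝ) < (Q.leadingCoeff : ℝ) := by exact_mod_cast q5
  have hlow := c_lower hτ Q ⟨q1, by omega, fun z hz => by
    obtain ⟨a1, a2, a3⟩ := q3 z hz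
    exact ⟨a1, a2.le, a3.le⟩⟩
  rw [q2, abs_of_pos hlc] at hlow
  have hnp : (0:ℝ) < ((n:ℝ) + 1) ^ C := by positivity
  have h1 : (Q.leadingCoeff : ℝ) * τ ^ n * ((n:ℝ) + 1) ^ 4 ≤ 1 := by
    have h2 : (Q.leadingCoeff : ℝ) * τ ^ n * ((n:ℝ) + 1) ^ 4 * ((n:ℝ) + 1) ^ C ≤ 1 * ((n:ℝ) + 1) ^ C := by
      rw [one_mul]
      refine le_trans (le_of_eq ?_) q6
      rw [pow_add]
      ring
    exact le_of_mul_le_mul_right h2 hnp
  have h3 : 16 * (n:ℝ) ^ 2 ≤ ((n:ℝ) + 1) ^ 4 := by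
    have e1 : 4 * (n:ℝ) ≤ ((n:ℝ) + 1) ^ 2 := by nlinarith [sq_nonneg ((n:ℝ) - 1)]
    have e2 : (4 * (n:ℝ)) ^ 2 ≤ (((n:ℝ) + 1) ^ 2) ^ 2 := pow_le_pow_left₀ (by positivity) e1 2
    calc 16 * (n:ℝ) ^ 2 = (4 * (n:ℝ)) ^ 2 := by ring
      _ ≤ _ := e2
      _ = _ := by ring
  have h4 : 0 < (Q.leadingCoeff : ℝ) * τ ^ n := by positivity
  have h5 := mul_le_mul_of_nonneg_left h3 h4.le
  nlinarith

end Pool.Agent.Lib.H35E
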